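import Pool.Agent.W394.BQN.Stm

/-!
# Bass-Quillen for iterated affine modifications: `LocRel` gives a localisation
-/

set_option autoImplicit false

open Polynomial

namespace Pool.Agent.W234.BQN

open Pool.Agent.W394.BQN BQ

theorem t_LR : S_LR := by
  intro V C Ω _ _ _ _ j ι h B _ φ hφ
  let _ : Algebra C[X] Ω := ι.toAlgebra
  have hal : ∀ c : C[X], algebraMap C[X] Ω c = ι c := fun _ => rfl
  have hloc : IsLocalization ((S2 V).map (Polynomial.mapRingHom j)) Ω := by
    refine (isLocalization_iff _ _).2 ⟨?_, ?_, ?_⟩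
    · rintro ⟨y, hy⟩
      obtain ⟨f, hf, rfl⟩ := Submonoid.mem_map.1 hy
      exact h.unit f hf
    · intro z
      obtain ⟨f, hf, c, hc⟩ := h.frac z
      refine ⟨(c, ⟨f.map j, Submonoid.mem_map.2 ⟨f, hf, rfl⟩⟩), ?_⟩
      rw [hal, hal, mul_comm]
      exact hc
    · intro x y hxy
      exact ⟨1, by rw [h.inj hxy]⟩
  have hg : ∀ y : (S2 V).map (Polynomial.mapRingHom j), IsUnit (φ y) := by
    rintro ⟨y, hy⟩
    obtain ⟨f, hf, rfl⟩ := Submonoid.mem_map.1 hy
    exact hφ f hf
  exact ⟨IsLocalization.lift hg, fun c => IsLocalization.lift_eq hg c⟩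

end Pool.Agent.W234.BQN
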